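import Mathlib

/-!
# A convex left-continuous modular whose modular topology is not regular (MP_106cb8_an, Q1: no)

On the space of finitely supported real sequences let `ρ(x) = ∑ 2^{-n} |x_n|` if `|∑ x_n| ≤ 1` and
`ρ(x) = ∞` otherwise. The set `F = {2 e_k}` is `ρ`-closed and `0 ∉ F`. Since `2 e_k - e_j` converges
modularly to `2 e_k` as `j → ∞` and to `0` as `k, j → ∞`, the point `0` and the closed set `F` do not
have disjoint open neighbourhoods.
-/

set_option autoImplicit false

open Set Topology Filter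
open scoped ENNReal

namespace Pool.Agent.Results.MP_106cb8_an.NotRegular

section defs

variable {X : Type} [AddCommGroup X] [Module ℝ X]

/-- `ρ` is a convex modular on `X`. -/
structure IsConvexModular (ρ : X → ℝ≥0∞) : Prop where
  eq_zero_iff : ∀ u, ρ u = 0 ↔ u = 0
  smul_eq : ∀ (α : ℝ) (u : X), |α| = 1 → ρ (α • u) = ρ u
  convex : ∀ (α : ℝ) (u v : X), 0 ≤ α → α ≤ 1 →
    ρ (α • u + (1 - α) • v) ≤ ENNReal.ofReal α * ρ u + ENNReal.ofReal (1 - α) * ρ v

/-- `ρ` is left-continuous. -/
def IsLeftContinuous (ρ : X → ℝ≥0∞) : Prop :=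
  ∀ (u : X) (c : ℝ), 0 < c → Tendsto (fun t : ℝ => ρ (t • u)) (𝓝[<] c) (𝓝 (ρ (c • u)))

/-- The modular space `X_ρ`. -/
def modularSpace (ρ : X → ℝ≥0∞) : Set X := {v | ∃ c : ℝ, 0 < c ∧ ρ (c • v) < ∞}

/-- `C` is a `ρ`-closed subset of `X_ρ`. -/
def IsModClosed (ρ : X → ℝ≥0∞) (C : Set X) : Prop :=
  C ⊆ modularSpace ρ ∧ ∀ (x : ℕ → X) (y : X), (∀ j, x j ∈ C) → y ∈ modularSpace ρ →
    Tendsto (fun j => ρ (x j - y)) atTop (𝓝 0) → y ∈ C

/-- `U` is open in the modular topology of `X_ρ`: its complement in `X_ρ` is `ρ`-closed. -/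
def IsModOpen (ρ : X → ℝ≥0∞) (U : Set X) : Prop :=
  U ⊆ modularSpace ρ ∧ IsModClosed ρ (modularSpace ρ \ U)

end defs

/-- the weighted sum -/
noncomputable def W (x : ℕ →₀ ℝ) : ℝ := x.sum fun n a => (1 / 2) ^ n * |a|

/-- the sum of the coordinates -/
noncomputable def S : (ℕ →₀ ℝ) →ₗ[ℝ] ℝ := Finsupp.lsum ℝ fun _ => LinearMap.id

lemma S_single (n : ℕ) (a : ℝ) : S (Finsupp.single n a) = a := by
  simp [S]

lemma W_eq (x : ℕ →₀ ℝ) (s : Finset ℕ) (hs : x.support ⊆ s) :
    W x = ∑ n ∈ s, (1 / 2 : ℝ) ^ n * |x n| := by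
  unfold W
  rw [Finsupp.sum_of_support_subset x hs]
  intro n _
  simp

lemma W_nonneg (x : ℕ →₀ ℝ) : 0 ≤ W x := by
  rw [W_eq x _ subset_rfl]
  positivity

lemma W_add_le (x y : ℕ →₀ ℝ) : W (x + y) ≤ W x + W y := by
  classical
  set s := x.support ∪ y.support
  rw [W_eq x s Finset.subset_union_left, W_eq y s Finset.subset_union_right,
    W_eq (x + y) s Finsupp.support_add, ← Finset.sum_add_distrib]
  refine Finset.sum_le_sum fun n _ => ?_
  rw [← mul_add]
  exact mul_le_mul_of_nonneg_left (abs_add_le _ _) (by positivity)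

lemma W_smul (c : ℝ) (x : ℕ →₀ ℝ) : W (c • x) = |c| * W x := by
  rw [W_eq (c • x) x.support Finsupp.support_smul, W_eq x _ subset_rfl, Finset.mul_sum]
  refine Finset.sum_congr rfl fun n _ => ?_
  simp only [Finsupp.smul_apply, smul_eq_mul, abs_mul]
  ring

lemma W_eq_zero {x : ℕ →₀ ℝ} (h : W x = 0) : x = 0 := by
  rw [W_eq x _ subset_rfl, Finset.sum_eq_zero_iff_of_nonneg (fun n _ => by positivity)] at h
  ext n
  by_cases hn : n ∈ x.support
  · have := h n hn
    simp only [mul_eq_zero, pow_eq_zero_iff', abs_eq_zero] at this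
    rcases this with h | h
    · norm_num at h
    · simpa using h
  · simpa using hn

lemma W_single (n : ℕ) (a : ℝ) : W (Finsupp.single n a) = (1 / 2) ^ n * |a| := by
  unfold W
  rw [Finsupp.sum_single_index]
  simp

lemma le_W (x : ℕ →₀ ℝ) (n : ℕ) : (1 / 2) ^ n * |x n| ≤ W x := by
  by_cases hn : n ∈ x.support
  · rw [W_eq x _ subset_rfl]
    exact Finset.single_le_sum (f := fun n => (1 / 2 : ℝ) ^ n * |x n|)
      (fun i _ => by positivity) hn
  · have : x n = 0 := by simpa using hn
    rw [this, abs_zero, mul_zero]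
    exact W_nonneg x

/-- the modular -/
noncomputable def rho (x : ℕ →₀ ℝ) : ℝ≥0∞ := if |S x| ≤ 1 then ENNReal.ofReal (W x) else ∞

lemma rho_lt_top {x : ℕ →₀ ℝ} (h : rho x < ∞) : |S x| ≤ 1 := by
  by_contra hc
  unfold rho at h
  rw [if_neg hc] at h
  exact lt_irrefl _ h

lemma rho_of_le {x : ℕ →₀ ℝ} (h : |S x| ≤ 1) : rho x = ENNReal.ofReal (W x) := if_pos h

lemma isConvexModular_rho : IsConvexModular rho := by
  refine ⟨?_, ?_, ?_⟩
  · intro u
    constructor
    · intro h
      have h1 : |S u| ≤ 1 := rho_lt_top (by rw [h]; simp)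
      rw [rho_of_le h1, ENNReal.ofReal_eq_zero] at h
      exact W_eq_zero (le_antisymm h (W_nonneg u))
    · rintro rfl
      rw [rho_of_le (by simp)]
      simp [W]
  · intro α u hα
    unfold rho
    rw [map_smul, smul_eq_mul, abs_mul, hα, one_mul, W_smul, hα, one_mul]
  · intro α u v h0 h1
    rcases h0.eq_or_lt with rfl | h0
    · simp
    rcases h1.eq_or_lt with rfl | h1
    · simp
    by_cases hu : |S u| ≤ 1
    · by_cases hv : |S v| ≤ 1
      · have h2 : |S (α • u + (1 - α) • v)| ≤ 1 := by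
          rw [map_add, map_smul, map_smul, smul_eq_mul, smul_eq_mul]
          refine (abs_add_le _ _).trans ?_
          rw [abs_mul, abs_mul, abs_of_pos h0, abs_of_pos (by linarith : 0 < 1 - α)]
          nlinarith
        rw [rho_of_le h2, rho_of_le hu, rho_of_le hv, ← ENNReal.ofReal_mul h0.le,
          ← ENNReal.ofReal_mul (by linarith), ← ENNReal.ofReal_add
            (mul_nonneg h0.le (W_nonneg _)) (mul_nonneg (by linarith) (W_nonneg _))]
        refine ENNReal.ofReal_le_ofReal ?_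
        refine (W_add_le _ _).trans ?_
        rw [W_smul, W_smul, abs_of_pos h0, abs_of_pos (by linarith : 0 < 1 - α)]
      · have : rho v = ∞ := if_neg hv
        rw [this, ENNReal.mul_top (by simp; linarith)]
        simp
    · have : rho u = ∞ := if_neg hu
      rw [this, ENNReal.mul_top (by simp; linarith)]
      simp

lemma leftContinuous_rho : IsLeftContinuous rho := by
  intro u c hc
  by_cases h : |S (c • u)| ≤ 1
  · rw [rho_of_le h]
    have h1 : ∀ᶠ t : ℝ in 𝓝[<] c, rho (t • u) = ENNReal.ofReal (W (t • u)) := by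
      have h2 : ∀ᶠ t : ℝ in 𝓝[<] c, t ∈ Set.Ioo 0 c := Ioo_mem_nhdsLT hc
      filter_upwards [h2] with t ht
      refine rho_of_le ?_
      rw [map_smul, smul_eq_mul, abs_mul] at h ⊢
      rw [abs_of_pos hc] at h
      rw [abs_of_pos ht.1]
      exact (mul_le_mul_of_nonneg_right ht.2.le (abs_nonneg _)).trans h
    refine Tendsto.congr' (h1.mono fun t ht => ht.symm) ?_
    refine (ENNReal.continuous_ofReal.tendsto _).comp ?_
    have h3 : Continuous fun t : ℝ => W (t • u) := by
      have : (fun t : ℝ => W (t • u)) = fun t => |t| * W u := by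
        funext t; exact W_smul t u
      rw [this]
      exact continuous_abs.mul continuous_const
    exact (h3.tendsto c).mono_left nhdsWithin_le_nhds
  · have h0 : rho (c • u) = ∞ := if_neg h
    rw [h0]
    push Not at h
    have h1 : ∀ᶠ t : ℝ in 𝓝[<] c, rho (t • u) = ∞ := by
      have h2 : Continuous fun t : ℝ => |S (t • u)| := by
        have : (fun t : ℝ => |S (t • u)|) = fun t => |t * S u| := by
          funext t; rw [map_smul, smul_eq_mul]
        rw [this]
        exact (continuous_id.mul continuous_const).abs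
      have h3 : ∀ᶠ t : ℝ in 𝓝 c, 1 < |S (t • u)| := (h2.tendsto c).eventually_const_lt h
      filter_upwards [h3.filter_mono nhdsWithin_le_nhds] with t ht
      exact if_neg (not_le.2 ht)
    exact Tendsto.congr' (h1.mono fun t ht => ht.symm) tendsto_const_nhds

lemma mem_modularSpace (x : ℕ →₀ ℝ) : x ∈ modularSpace rho := by
  refine ⟨(1 + |S x|)⁻¹, by positivity, ?_⟩
  rw [rho_of_le]
  · exact ENNReal.ofReal_lt_top
  · rw [map_smul, smul_eq_mul, abs_mul, abs_inv, abs_of_pos (by positivity : 0 < 1 + |S x|),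
      inv_mul_le_iff₀ (by positivity)]
    linarith [abs_nonneg (S x)]

/-- the closed set -/
def FF : Set (ℕ →₀ ℝ) := {x | ∃ k : ℕ, x = Finsupp.single k 2}

/-- modular convergence implies coordinatewise convergence -/
lemma tendsto_coord {x : ℕ → (ℕ →₀ ℝ)} {y : ℕ →₀ ℝ}
    (h : Tendsto (fun j => rho (x j - y)) atTop (𝓝 0)) :
    (∀ᶠ j in atTop, |S (x j - y)| ≤ 1) ∧
      ∀ n, Tendsto (fun j => (x j - y) n) atTop (𝓝 0) := by
  have h1 : ∀ᶠ j in atTop, |S (x j - y)| ≤ 1 := by
    have h2 : ∀ᶠ j in atTop, rho (x j - y) < 1 := h.eventually_lt_const (by simp)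
    filter_upwards [h2] with j hj
    exact rho_lt_top (hj.trans (by simp))
  refine ⟨h1, fun n => ?_⟩
  have h3 : Tendsto (fun j => W (x j - y)) atTop (𝓝 0) := by
    have h4 : Tendsto (fun j => (rho (x j - y)).toReal) atTop (𝓝 0) := by
      have := (ENNReal.tendsto_toReal ENNReal.zero_ne_top).comp h
      rw [ENNReal.toReal_zero] at this
      exact this
    refine Tendsto.congr' ?_ h4
    filter_upwards [h1] with j hj
    rw [rho_of_le hj, ENNReal.toReal_ofReal (W_nonneg _)]
  rw [tendsto_zero_iff_abs_tendsto_zero]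
  have h5 : Tendsto (fun j => (2 : ℝ) ^ n * W (x j - y)) atTop (𝓝 0) := by
    simpa using h3.const_mul ((2 : ℝ) ^ n)
  refine squeeze_zero (fun j => abs_nonneg _) (fun j => ?_) h5
  have := le_W (x j - y) n
  have h6 : (2 : ℝ) ^ n * ((1 / 2) ^ n * |(x j - y) n|) ≤ 2 ^ n * W (x j - y) :=
    mul_le_mul_of_nonneg_left this (by positivity)
  rw [← mul_assoc, ← mul_pow] at h6
  norm_num at h6
  simpa using h6

lemma isModClosed_FF : IsModClosed rho FF := by
  refine ⟨fun x _ => mem_modularSpace x, ?_⟩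
  intro x y hx _ h
  choose k hk using hx
  obtain ⟨h1, h2⟩ := tendsto_coord h
  -- some coordinate of `y` is nonzero
  have hy : y ≠ 0 := by
    rintro rfl
    obtain ⟨j, hj⟩ := h1.exists
    rw [sub_zero, hk j, S_single] at hj
    norm_num at hj
  obtain ⟨n, hn⟩ : ∃ n, y n ≠ 0 := by
    by_contra hc
    push Not at hc
    exact hy (Finsupp.ext hc)
  -- eventually `k j = n`
  have h3 : ∀ᶠ j in atTop, k j = n := by
    have h4 : ∀ᶠ j in atTop, |(x j - y) n| < |y n| := by
      have := (h2 n).abs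
      rw [abs_zero] at this
      exact this.eventually_lt_const (abs_pos.2 hn)
    filter_upwards [h4] with j hj
    by_contra hc
    rw [hk j, Finsupp.sub_apply, Finsupp.single_apply, if_neg hc, zero_sub, abs_neg] at hj
    exact lt_irrefl _ hj
  refine ⟨n, ?_⟩
  ext m
  have h4 : Tendsto (fun j => (x j - y) m) atTop (𝓝 (Finsupp.single n 2 m - y m)) := by
    refine tendsto_const_nhds.congr' ?_
    filter_upwards [h3] with j hj
    rw [hk j, hj, Finsupp.sub_apply]
  have h5 := tendsto_nhds_unique h4 (h2 m)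
  linarith

lemma zero_notMem : (0 : ℕ →₀ ℝ) ∉ FF := by
  rintro ⟨k, hk⟩
  have := congrArg (fun x : ℕ →₀ ℝ => x k) hk
  simp at this

lemma not_separated (U V : Set (ℕ →₀ ℝ)) (hU : IsModOpen rho U) (hV : IsModOpen rho V)
    (h0 : (0 : ℕ →₀ ℝ) ∈ U) (hF : FF ⊆ V) : (U ∩ V).Nonempty := by
  have hpow : Tendsto (fun n : ℕ => (1 / 2 : ℝ) ^ n) atTop (𝓝 0) :=
    tendsto_pow_atTop_nhds_zero_of_lt_one (by norm_num) (by norm_num)
  -- points close to 0
  obtain ⟨N, hN⟩ : ∃ N : ℕ, ∀ k j : ℕ, N ≤ k → N ≤ j →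
      Finsupp.single k (2 : ℝ) - Finsupp.single j 1 ∈ U := by
    by_contra hc
    push Not at hc
    choose k j hk hj hkj using hc
    refine (hU.2.2 (fun N => Finsupp.single (k N) (2 : ℝ) - Finsupp.single (j N) 1) 0
      (fun N => ⟨mem_modularSpace _, hkj N⟩) (mem_modularSpace _) ?_).2 h0
    have h1 : ∀ N, rho (Finsupp.single (k N) (2 : ℝ) - Finsupp.single (j N) 1 - 0) ≤
        ENNReal.ofReal (3 * (1 / 2) ^ N) := by
      intro N
      rw [sub_zero, rho_of_le (by rw [map_sub, S_single, S_single]; norm_num)]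
      refine ENNReal.ofReal_le_ofReal ?_
      rw [sub_eq_add_neg, ← Finsupp.single_neg]
      refine (W_add_le _ _).trans ?_
      rw [W_single, W_single]
      have h2 : (1 / 2 : ℝ) ^ (k N) ≤ (1 / 2) ^ N :=
        pow_le_pow_of_le_one (by norm_num) (by norm_num) (hk N)
      have h3 : (1 / 2 : ℝ) ^ (j N) ≤ (1 / 2) ^ N :=
        pow_le_pow_of_le_one (by norm_num) (by norm_num) (hj N)
      rw [abs_neg, abs_one, abs_two]
      linarith
    have h2 : Tendsto (fun N : ℕ => ENNReal.ofReal (3 * (1 / 2) ^ N)) atTop (𝓝 0) := by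
      have := (ENNReal.continuous_ofReal.tendsto 0).comp (by simpa using hpow.const_mul 3 :
        Tendsto (fun N : ℕ => (3 : ℝ) * (1 / 2) ^ N) atTop (𝓝 0))
      rw [ENNReal.ofReal_zero] at this
      exact this
    exact tendsto_of_tendsto_of_tendsto_of_le_of_le tendsto_const_nhds h2
      (fun _ => bot_le) h1
  -- points close to 2 e_N
  obtain ⟨M, hM⟩ : ∃ M : ℕ, ∀ j : ℕ, M ≤ j →
      Finsupp.single N (2 : ℝ) - Finsupp.single j 1 ∈ V := by
    by_contra hc
    push Not at hc
    choose j hj hjV using hc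
    refine (hV.2.2 (fun M => Finsupp.single N (2 : ℝ) - Finsupp.single (j M) 1)
      (Finsupp.single N 2) (fun M => ⟨mem_modularSpace _, hjV M⟩) (mem_modularSpace _) ?_).2
      (hF ⟨N, rfl⟩)
    have h1 : ∀ M, rho (Finsupp.single N (2 : ℝ) - Finsupp.single (j M) 1 - Finsupp.single N 2) ≤
        ENNReal.ofReal ((1 / 2) ^ M) := by
      intro M
      have h2 : Finsupp.single N (2 : ℝ) - Finsupp.single (j M) 1 - Finsupp.single N 2 =
          Finsupp.single (j M) (-1) := by
        rw [Finsupp.single_neg]; abel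
      rw [h2, rho_of_le (by rw [S_single]; norm_num)]
      refine ENNReal.ofReal_le_ofReal ?_
      rw [W_single, abs_neg, abs_one, mul_one]
      exact pow_le_pow_of_le_one (by norm_num) (by norm_num) (hj M)
    have h2 : Tendsto (fun N : ℕ => ENNReal.ofReal ((1 / 2) ^ N)) atTop (𝓝 0) := by
      have := (ENNReal.continuous_ofReal.tendsto 0).comp hpow
      rw [ENNReal.ofReal_zero] at this
      exact this
    exact tendsto_of_tendsto_of_tendsto_of_le_of_le tendsto_const_nhds h2
      (fun _ => bot_le) h1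
  exact ⟨_, hN N (max N M) le_rfl (le_max_left _ _), hM (max N M) (le_max_right _ _)⟩

/-- There are a real vector space `X` and a convex, left-continuous modular `ρ` on `X`, a
`ρ`-closed set `F` and a point `x ∈ X_ρ` outside `F` such that each set which is open in the
modular topology and contains `x` meets each such set which contains `F`. -/
theorem result : ∃ (X : Type) (_ : AddCommGroup X) (_ : Module ℝ X) (ρ : X → ℝ≥0∞),
    IsConvexModular ρ ∧ IsLeftContinuous ρ ∧
      ∃ F : Set X, IsModClosed ρ F ∧ ∃ x ∈ modularSpace ρ, x ∉ F ∧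
        ∀ U V : Set X, IsModOpen ρ U → IsModOpen ρ V → x ∈ U → F ⊆ V → (U ∩ V).Nonempty :=
  ⟨ℕ →₀ ℝ, inferInstance, inferInstance, rho, isConvexModular_rho, leftContinuous_rho, FF,
    isModClosed_FF, 0, mem_modularSpace 0, zero_notMem, not_separated⟩

end Pool.Agent.Results.MP_106cb8_an.NotRegular
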